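import Pool.Agent.H860R2.Wijsman

/-!
For every completely metrizable space `X` and every compatible metric `d` on `X`, the Wijsman
hyperspace of `(X, d)` is strongly `α`-favorable (in particular strongly Choquet).
-/

set_option autoImplicit false

open Set Topology

namespace Pool.Agent.Results.MP_491d6e_gt.StrongTactic

open Pool.Agent.H860R2.Wijsman

universe u

/-- `α` has a winning tactic in the strong Choquet game on the space `(Y, τ)`: a rule `σ` which
assigns to each move `(y, U)` of `β` (a point `y` of the open set `U`) an open set `σ y U` with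
`y ∈ σ y U ⊆ U`, such that for all plays `(y 0, U 0), (y 1, U 1), …` of `β` with
`U (n + 1) ⊆ σ (y n) (U n)` the intersection of the moves `σ (y n) (U n)` of `α` is nonempty. -/
def StronglyAlphaFavorable (Y : Type u) (τ : TopologicalSpace Y) : Prop :=
  ∃ σ : Y → Set Y → Set Y,
    (∀ y U, IsOpen[τ] U → y ∈ U → IsOpen[τ] (σ y U) ∧ y ∈ σ y U ∧ σ y U ⊆ U) ∧
    ∀ (y : ℕ → Y) (U : ℕ → Set Y), (∀ n, IsOpen[τ] (U n) ∧ y n ∈ U n) →
      (∀ n, U (n + 1) ⊆ σ (y n) (U n)) → (⋂ n, σ (y n) (U n)).Nonempty

/-- For every completely metrizable space `X` and every compatible metric `d`, the hyperspace of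
the nonempty closed subsets of `X` with the Wijsman topology of `d` is strongly `α`-favorable. -/
theorem result : ∀ (X : Type u) [t : TopologicalSpace X]
    [TopologicalSpace.IsCompletelyMetrizableSpace X] (d : MetricSpace X),
    d.toUniformSpace.toTopologicalSpace = t →
    StronglyAlphaFavorable (Hyp X) (wijsman X d) := by
  classical
  intro X t hc d hd
  subst hd
  obtain ⟨D⟩ := exists_sizeData X
  choose! S T hST using exists_good D
  refine ⟨fun A U => if IsOpen[wijsman X d] U ∧ A ∈ U then VV (S A U) (T A U) else U, ?_, ?_⟩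
  · intro A U hU hA
    have h1 : IsOpen[wijsman X d] U ∧ A ∈ U := ⟨hU, hA⟩
    have hg := hST A U hU hA
    simp only [if_pos h1]
    refine ⟨isOpen_VV _ _, hg.inV, fun B hB => hg.sub ⟨fun t ht => ?_, fun t ht => ?_⟩⟩
    · exact (hB.1 t ht).trans (hg.pos t ht).2
    · exact (hg.lt t ht).trans (hB.2 t ht)
  · intro A U hAU hsub
    have h1 : ∀ n, (if IsOpen[wijsman X d] (U n) ∧ A n ∈ U n then
        VV (S (A n) (U n)) (T (A n) (U n)) else U n) = VV (S (A n) (U n)) (T (A n) (U n)) :=
      fun n => if_pos (hAU n)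
    simp only [h1] at hsub ⊢
    obtain ⟨B, hB⟩ := play D A U (fun n => S (A n) (U n)) (fun n => T (A n) (U n))
      (fun n => hST (A n) (U n) (hAU n).1 (hAU n).2) hsub (fun n => (hAU n).2)
    exact ⟨B, mem_iInter.2 fun n => hsub n (hB (n + 1))⟩

end Pool.Agent.Results.MP_491d6e_gt.StrongTactic
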